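import Pool.Agent.Lib.MP_33d9ce_co.Cst.Ifc

/-!
# Spanning hypercubes, constant density: a fair array

The positions are filled row by row; the row `s` is shifted by a random amount, independently of the other rows.  For a
set of vertices and a column the number of hits is a sum of independent indicators, and `exp x ≤ 1 + x + x ^ 2` gives
the two tails.
-/

set_option autoImplicit false

noncomputable section

open Classical Finset

namespace Pool.Agent.Lib.MP_33d9ce_co.Cst

/-- exponential moment of a number of hits, all coordinates being independent and uniform -/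
private theorem arr_moment {Z S : Type} [Fintype Z] [Fintype S] [Nonempty Z] (p : Z → S → Prop)
    (l : ℝ) (hl : |l| ≤ 1) :
    ∑ g : S → Z, Real.exp (l * ((univ : Finset S).filter fun s => p (g s) s).card) ≤
      (Fintype.card Z : ℝ) ^ Fintype.card S *
        Real.exp (l * ((((univ : Finset (Z × S)).filter fun x => p x.1 x.2).card : ℝ) / Fintype.card Z) +
          l ^ 2 * Fintype.card S) := by
  have hn : (0 : ℝ) < Fintype.card Z := by exact_mod_cast Fintype.card_pos
  have e1 : ∀ g : S → Z, Real.exp (l * ((univ : Finset S).filter fun s => p (g s) s).card) =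
      ∏ s, (if p (g s) s then Real.exp l else 1) := by
    intro g
    rw [Finset.prod_ite]
    rw [Finset.prod_const, Finset.prod_const, one_pow, mul_one, ← Real.exp_nat_mul, mul_comm]
  have e2 : ∑ g : S → Z, ∏ s, (if p (g s) s then Real.exp l else 1) =
      ∏ s, ∑ a : Z, (if p a s then Real.exp l else 1) := by
    rw [Finset.prod_univ_sum (fun _ => (univ : Finset Z))
      (fun s a => if p a s then Real.exp l else 1), Fintype.piFinset_univ]
  have e3 : ∀ s, ∑ a : Z, (if p a s then Real.exp l else 1) =
      Fintype.card Z + ((univ : Finset Z).filter fun a => p a s).card * (Real.exp l - 1) := by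
    intro s
    have : ∀ a : Z, (if p a s then Real.exp l else 1) = 1 + (if p a s then 1 else 0) * (Real.exp l - 1) := by
      intro a
      split_ifs <;> ring
    simp only [this, Finset.sum_add_distrib, ← Finset.sum_mul, Finset.sum_boole]
    simp
  have hexp : Real.exp l - 1 ≤ l + l ^ 2 := by
    have := (abs_le.1 (Real.abs_exp_sub_one_sub_id_le hl)).2
    linarith
  have hle : ∀ s, (((univ : Finset Z).filter fun a => p a s).card : ℝ) ≤ Fintype.card Z := fun s => by
    exact_mod_cast Finset.card_le_univ _
  have e4 : ∀ s, (Fintype.card Z : ℝ) + ((univ : Finset Z).filter fun a => p a s).card * (Real.exp l - 1) ≤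
      Fintype.card Z * Real.exp (l * ((((univ : Finset Z).filter fun a => p a s).card : ℝ) /
        Fintype.card Z) + l ^ 2) := by
    intro s
    set c : ℝ := (((univ : Finset Z).filter fun a => p a s).card : ℝ) with hc
    have hc0 : 0 ≤ c := by positivity
    have hc1 : c / Fintype.card Z ≤ 1 := (div_le_one hn).2 (hle s)
    have h1 := Real.add_one_le_exp (l * (c / Fintype.card Z) + l ^ 2)
    have h2 : 1 + (c / Fintype.card Z) * (l + l ^ 2) ≤ Real.exp (l * (c / Fintype.card Z) + l ^ 2) := by
      refine le_trans ?_ h1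
      have : (c / Fintype.card Z) * l ^ 2 ≤ 1 * l ^ 2 :=
        mul_le_mul_of_nonneg_right hc1 (sq_nonneg l)
      linarith
    calc (Fintype.card Z : ℝ) + c * (Real.exp l - 1) ≤ Fintype.card Z + c * (l + l ^ 2) := by
          have := mul_le_mul_of_nonneg_left hexp hc0
          linarith
      _ = Fintype.card Z * (1 + (c / Fintype.card Z) * (l + l ^ 2)) := by
          field_simp
      _ ≤ _ := mul_le_mul_of_nonneg_left h2 hn.le
  have e5 : ∑ s, (((univ : Finset Z).filter fun a => p a s).card : ℝ) =
      (((univ : Finset (Z × S)).filter fun x => p x.1 x.2).card : ℝ) := by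
    have : ∑ s, ((univ : Finset Z).filter fun a => p a s).card =
        ((univ : Finset (Z × S)).filter fun x => p x.1 x.2).card := by
      simp only [Finset.card_filter]
      rw [← Finset.univ_product_univ, Finset.sum_product_right]
    exact_mod_cast this
  simp only [e1]
  rw [e2]
  calc ∏ s, ∑ a : Z, (if p a s then Real.exp l else 1)
      ≤ ∏ s, (Fintype.card Z * Real.exp (l * ((((univ : Finset Z).filter fun a => p a s).card : ℝ) /
        Fintype.card Z) + l ^ 2)) := by
        refine Finset.prod_le_prod (fun s _ => ?_) (fun s _ => ?_)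
        · exact Finset.sum_nonneg fun a _ => by split_ifs <;> positivity
        · rw [e3]
          exact e4 s
    _ = _ := by
        rw [Finset.prod_mul_distrib, Finset.prod_const, Finset.card_univ, ← Real.exp_sum,
          Finset.sum_add_distrib, ← Finset.mul_sum, ← Finset.sum_div, e5, Finset.sum_const,
          Finset.card_univ, nsmul_eq_mul]
        ring_nf

/-- one tail -/
private theorem arr_tail {Z S : Type} [Fintype Z] [Fintype S] [Nonempty Z] (p : Z → S → Prop)
    (ξ : ℝ) (hξ : 0 < ξ) (hξ1 : ξ ≤ 1) (ε : ℝ) (hε : ε = 1 ∨ ε = -1) :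
    (((univ : Finset (S → Z)).filter fun g =>
      ξ * Fintype.card S < ε * ((((univ : Finset S).filter fun s => p (g s) s).card : ℝ) -
        (((univ : Finset (Z × S)).filter fun x => p x.1 x.2).card : ℝ) / Fintype.card Z)).card : ℝ) ≤
      (Fintype.card Z : ℝ) ^ Fintype.card S * Real.exp (-(ξ ^ 2 * Fintype.card S / 4)) := by
  have hε2 : ε ^ 2 = 1 := by rcases hε with h | h <;> rw [h] <;> norm_num
  have hεa : |ε| = 1 := by rcases hε with h | h <;> rw [h] <;> norm_num
  set m : ℝ := (((univ : Finset (Z × S)).filter fun x => p x.1 x.2).card : ℝ) / Fintype.card Z with hm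
  have hl : |ε * (ξ / 2)| ≤ 1 := by
    rw [abs_mul, hεa, one_mul, abs_of_pos (by linarith)]
    linarith
  have h0 := arr_moment p (ε * (ξ / 2)) hl
  rw [← hm] at h0
  set B := (univ : Finset (S → Z)).filter fun g =>
      ξ * Fintype.card S < ε * ((((univ : Finset S).filter fun s => p (g s) s).card : ℝ) - m) with hB
  have h1 : (B.card : ℝ) * Real.exp (ξ / 2 * (ξ * Fintype.card S) + ε * (ξ / 2) * m) ≤
      ∑ g : S → Z, Real.exp (ε * (ξ / 2) * ((univ : Finset S).filter fun s => p (g s) s).card) := by
    calc (B.card : ℝ) * Real.exp (ξ / 2 * (ξ * Fintype.card S) + ε * (ξ / 2) * m) =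
        ∑ g ∈ B, Real.exp (ξ / 2 * (ξ * Fintype.card S) + ε * (ξ / 2) * m) := by
          rw [Finset.sum_const, nsmul_eq_mul]
      _ ≤ ∑ g ∈ B, Real.exp (ε * (ξ / 2) * ((univ : Finset S).filter fun s => p (g s) s).card) := by
          refine Finset.sum_le_sum fun g hg => ?_
          have h2 := (Finset.mem_filter.1 hg).2
          refine Real.exp_le_exp.2 ?_
          have h3 := mul_le_mul_of_nonneg_left h2.le (by linarith : (0 : ℝ) ≤ ξ / 2)
          linarith
      _ ≤ _ := Finset.sum_le_sum_of_subset_of_nonneg (Finset.subset_univ _)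
          fun g _ _ => by positivity
  have h3 := h1.trans h0
  have h4 : Real.exp (ε * (ξ / 2) * m + (ε * (ξ / 2)) ^ 2 * Fintype.card S) =
      Real.exp (-(ξ ^ 2 * Fintype.card S / 4)) *
        Real.exp (ξ / 2 * (ξ * Fintype.card S) + ε * (ξ / 2) * m) := by
    rw [← Real.exp_add]
    congr 1
    rw [mul_pow, hε2]
    ring
  rw [h4, ← mul_assoc ((Fintype.card Z : ℝ) ^ Fintype.card S)] at h3
  exact le_of_mul_le_mul_right h3 (Real.exp_pos _)

/-- both tails -/
private theorem arr_bad {Z S : Type} [Fintype Z] [Fintype S] [Nonempty Z] (p : Z → S → Prop)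
    (ξ : ℝ) (hξ : 0 < ξ) (hξ1 : ξ ≤ 1) (m : ℝ)
    (hm : m = (((univ : Finset (Z × S)).filter fun x => p x.1 x.2).card : ℝ) / Fintype.card Z) :
    (((univ : Finset (S → Z)).filter fun g =>
      ξ * Fintype.card S < |(((univ : Finset S).filter fun s => p (g s) s).card : ℝ) - m|).card : ℝ) ≤
      (Fintype.card Z : ℝ) ^ Fintype.card S * (2 * Real.exp (-(ξ ^ 2 * Fintype.card S / 4))) := by
  have h1 := arr_tail p ξ hξ hξ1 1 (Or.inl rfl)
  have h2 := arr_tail p ξ hξ hξ1 (-1) (Or.inr rfl)
  rw [← hm] at h1 h2
  have h3 : ((univ : Finset (S → Z)).filter fun g =>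
      ξ * Fintype.card S < |(((univ : Finset S).filter fun s => p (g s) s).card : ℝ) - m|) ⊆
      ((univ : Finset (S → Z)).filter fun g =>
        ξ * Fintype.card S < 1 * ((((univ : Finset S).filter fun s => p (g s) s).card : ℝ) - m)) ∪
      ((univ : Finset (S → Z)).filter fun g =>
        ξ * Fintype.card S < (-1) * ((((univ : Finset S).filter fun s => p (g s) s).card : ℝ) - m)) := by
    intro g hg
    have hg2 := (Finset.mem_filter.1 hg).2
    rw [Finset.mem_union, Finset.mem_filter, Finset.mem_filter]
    rcases lt_abs.1 hg2 with h | h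
    · exact Or.inl ⟨Finset.mem_univ _, by linarith⟩
    · exact Or.inr ⟨Finset.mem_univ _, by linarith⟩
  have h4 : (((univ : Finset (S → Z)).filter fun g =>
      ξ * Fintype.card S < |(((univ : Finset S).filter fun s => p (g s) s).card : ℝ) - m|).card : ℝ) ≤
      (((univ : Finset (S → Z)).filter fun g =>
        ξ * Fintype.card S < 1 * ((((univ : Finset S).filter fun s => p (g s) s).card : ℝ) - m)).card : ℝ) +
      (((univ : Finset (S → Z)).filter fun g =>
        ξ * Fintype.card S < (-1) * ((((univ : Finset S).filter fun s => p (g s) s).card : ℝ) - m)).card : ℝ) := by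
    exact_mod_cast (Finset.card_le_card h3).trans (Finset.card_union_le _ _)
  linarith

theorem main_A : S_A := by
  intro V I S 𝓡 _ _ _ _ _ _ A Rs ξ hξ hcard hp
  have hSpos : (0 : ℝ) < Fintype.card S := by exact_mod_cast Fintype.card_pos
  have hIpos : (0 : ℝ) < Fintype.card I := by exact_mod_cast Fintype.card_pos
  have hn0 : Fintype.card I ≠ 0 := Fintype.card_ne_zero
  have hNZ : NeZero (Fintype.card I) := ⟨hn0⟩
  obtain ⟨f0⟩ : Nonempty (I × S ≃ {v // v ∈ A}) := by
    apply Fintype.card_eq.1
    rw [Fintype.card_prod, Fintype.card_coe, hcard]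
  let e : I ≃ ZMod (Fintype.card I) := Fintype.equivOfCardEq (by rw [ZMod.card])
  -- the array with shifts `g`
  let F : (S → ZMod (Fintype.card I)) → I → S → {v // v ∈ A} := fun g i s => f0 (e.symm (e i + g s), s)
  have hinj : ∀ g, Function.Injective (fun x : I × S => F g x.1 x.2) := by
    rintro g ⟨i, s⟩ ⟨i', s'⟩ hx
    have h1 := f0.injective hx
    simp only [Prod.mk.injEq, EmbeddingLike.apply_eq_iff_eq] at h1
    obtain ⟨h1, rfl⟩ := h1
    rw [add_left_inj] at h1
    rw [e.injective h1]
  have hAc : (A.card : ℝ) = Fintype.card I * Fintype.card S := by exact_mod_cast hcard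
  -- the mean
  have hmean : ∀ r i, (Fintype.card S : ℝ) * (((A.filter fun v => Rs r v).card : ℝ) / A.card) =
      (((univ : Finset (ZMod (Fintype.card I) × S)).filter fun x =>
        Rs r (f0 (e.symm (e i + x.1), x.2))).card : ℝ) / Fintype.card (ZMod (Fintype.card I)) := by
    intro r i
    have h1 : ((univ : Finset (ZMod (Fintype.card I) × S)).filter fun x =>
        Rs r (f0 (e.symm (e i + x.1), x.2))).card = (A.filter fun v => Rs r v).card := by
      refine Finset.card_bij (fun x _ => (f0 (e.symm (e i + x.1), x.2) : V)) ?_ ?_ ?_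
      · intro x hx
        exact Finset.mem_filter.2 ⟨(f0 _).2, (Finset.mem_filter.1 hx).2⟩
      · rintro ⟨a, s⟩ - ⟨a', s'⟩ - hx
        have h2 := f0.injective (Subtype.ext hx)
        simp only [Prod.mk.injEq, EmbeddingLike.apply_eq_iff_eq] at h2
        obtain ⟨h2, rfl⟩ := h2
        rw [add_right_inj] at h2
        rw [h2]
      · intro v hv
        obtain ⟨hv1, hv2⟩ := Finset.mem_filter.1 hv
        refine ⟨(e (f0.symm ⟨v, hv1⟩).1 - e i, (f0.symm ⟨v, hv1⟩).2), ?_, ?_⟩
        · rw [Finset.mem_filter]
          refine ⟨Finset.mem_univ _, ?_⟩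
          simpa using hv2
        · simp
    rw [h1, ZMod.card, hAc]
    field_simp
  by_cases hξ1 : ξ ≤ 1
  · have hbad : ∀ r i, (((univ : Finset (S → ZMod (Fintype.card I))).filter fun g =>
        ξ * Fintype.card S < |(({s | Rs r (F g i s)} : Finset S).card : ℝ) -
          Fintype.card S * (((A.filter fun v => Rs r v).card : ℝ) / A.card)|).card : ℝ) ≤
        (Fintype.card I : ℝ) ^ Fintype.card S * (2 * Real.exp (-(ξ ^ 2 * Fintype.card S / 4))) := by
      intro r i
      have h2 := arr_bad (Z := ZMod (Fintype.card I)) (S := S)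
        (fun a s => Rs r (f0 (e.symm (e i + a), s))) ξ hξ hξ1 _ (hmean r i)
      rw [ZMod.card] at h2
      exact h2
    by_contra hcon
    push Not at hcon
    have hcov : (univ : Finset (S → ZMod (Fintype.card I))) ⊆
        (univ : Finset (𝓡 × I)).biUnion fun x =>
          (univ : Finset (S → ZMod (Fintype.card I))).filter fun g =>
            ξ * Fintype.card S < |(({s | Rs x.1 (F g x.2 s)} : Finset S).card : ℝ) -
              Fintype.card S * (((A.filter fun v => Rs x.1 v).card : ℝ) / A.card)| := by
      intro g _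
      obtain ⟨r, i, hri⟩ := hcon (F g) (hinj g)
      rw [Finset.mem_biUnion]
      exact ⟨(r, i), Finset.mem_univ _, Finset.mem_filter.2 ⟨Finset.mem_univ _, hri⟩⟩
    have hcard := (Finset.card_le_card hcov).trans Finset.card_biUnion_le
    rw [Finset.card_univ, Fintype.card_fun, ZMod.card] at hcard
    have hcard' : ((Fintype.card I : ℝ) ^ Fintype.card S) ≤
        ∑ x : 𝓡 × I, (((univ : Finset (S → ZMod (Fintype.card I))).filter fun g =>
            ξ * Fintype.card S < |(({s | Rs x.1 (F g x.2 s)} : Finset S).card : ℝ) -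
              Fintype.card S * (((A.filter fun v => Rs x.1 v).card : ℝ) / A.card)|).card : ℝ) := by
      exact_mod_cast hcard
    have hsum : ∑ x : 𝓡 × I, (((univ : Finset (S → ZMod (Fintype.card I))).filter fun g =>
            ξ * Fintype.card S < |(({s | Rs x.1 (F g x.2 s)} : Finset S).card : ℝ) -
              Fintype.card S * (((A.filter fun v => Rs x.1 v).card : ℝ) / A.card)|).card : ℝ) ≤
        ((Fintype.card I : ℝ) ^ Fintype.card S) *
          (2 * (Fintype.card 𝓡 : ℝ) * Fintype.card I * Real.exp (-(ξ ^ 2 * Fintype.card S / 4))) := by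
      refine (Finset.sum_le_sum fun x _ => hbad x.1 x.2).trans (le_of_eq ?_)
      rw [Finset.sum_const, nsmul_eq_mul, Finset.card_univ, Fintype.card_prod]
      push_cast
      ring
    have hpos : (0 : ℝ) < (Fintype.card I : ℝ) ^ Fintype.card S := by positivity
    nlinarith [hcard'.trans hsum, mul_lt_mul_of_pos_left hp hpos]
  · -- large `ξ`: any array
    refine ⟨F 0, hinj 0, fun r i => ?_⟩
    have h1 : (({s | Rs r (F 0 i s)} : Finset S).card : ℝ) ≤ Fintype.card S := by
      exact_mod_cast Finset.card_le_univ _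
    have h2 : ((A.filter fun v => Rs r v).card : ℝ) / A.card ≤ 1 := by
      rw [div_le_one (by rw [hAc]; positivity)]
      exact_mod_cast Finset.card_filter_le _ _
    have h3 : (0 : ℝ) ≤ ((A.filter fun v => Rs r v).card : ℝ) / A.card := by positivity
    have h4 : (0 : ℝ) ≤ (({s | Rs r (F 0 i s)} : Finset S).card : ℝ) := Nat.cast_nonneg _
    have h5 : (Fintype.card S : ℝ) ≤ ξ * Fintype.card S := by nlinarith
    have h6 := mul_le_mul_of_nonneg_left h2 hSpos.le
    have h7 := mul_nonneg hSpos.le h3
    rw [abs_le]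
    constructor <;> linarith

end Pool.Agent.Lib.MP_33d9ce_co.Cst
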